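import Pool.Agent.Work.MP_1ce445_hub.Interface

/-! Block CN of MP_1ce445_co (windows above `1/2`): counting. -/

namespace Pool.Agent.Work.MP_1ce445_hub

open Finset Pool.Agent.Work.MP_1ce445_low

section

variable {ι : Type} [Fintype ι] [DecidableEq ι] {q : ℕ} {D : ℝ}

theorem CN_nonneg (S : TSys ι q D) (P : ι → Prop) : 0 ≤ mass S P := by
  classical
  unfold mass
  refine Finset.sum_nonneg (fun s _ => ?_)
  by_cases h : P s
  · rw [if_pos h]
    exact (S.w_pos s).le
  · rw [if_neg h]

theorem CN_mono (S : TSys ι q D) {P Q : ι → Prop} (hPQ : ∀ s, P s → Q s) : mass S P ≤ mass S Q := by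
  classical
  unfold mass
  refine Finset.sum_le_sum (fun s _ => ?_)
  by_cases h : P s
  · rw [if_pos h, if_pos (hPQ s h)]
  · rw [if_neg h]
    by_cases h' : Q s
    · rw [if_pos h']
      exact (S.w_pos s).le
    · rw [if_neg h']

theorem CN_le_one (S : TSys ι q D) (P : ι → Prop) : mass S P ≤ 1 := by
  classical
  unfold mass
  rw [← S.w_sum]
  refine Finset.sum_le_sum (fun s _ => ?_)
  by_cases h : P s
  · rw [if_pos h]
  · rw [if_neg h]
    exact (S.w_pos s).le

theorem CN_mass (S : TSys ι q D) (P : ι → Prop) [DecidablePred P] :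
    mass S P = ∑ s, if P s then S.w s else 0 := by
  unfold mass
  refine Finset.sum_congr rfl (fun s _ => ?_)
  by_cases h : P s
  · rw [if_pos h, if_pos h]
  · rw [if_neg h, if_neg h]

theorem CN_mm (S : TSys ι q D) (j : Fin q) :
    mm S j = ∑ s, if S.T s ∩ Sg S = {j} then S.w s else 0 := CN_mass S _

theorem CN_nn (S : TSys ι q D) (j : Fin q) :
    nn S j = ∑ s, if S.T s = {j} then S.w s else 0 := CN_mass S _

theorem CN_rj (S : TSys ι q D) (j : Fin q) :
    rj S j = ∑ s, if j ∈ S.T s ∧ 2 ≤ (S.T s ∩ Sg S).card then S.w s else 0 := CN_mass S _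

theorem CN_rr (S : TSys ι q D) :
    rr S = ∑ s, if 2 ≤ (S.T s ∩ Sg S).card then S.w s else 0 := CN_mass S _

theorem CN_zz (S : TSys ι q D) :
    zz S = ∑ s, if S.T s ∩ Sg S = ∅ then S.w s else 0 := CN_mass S _

theorem CN_mem (S : TSys ι q D) (j : Fin q) : j ∈ Sg S ↔ ∃ s, S.T s = {j} := by
  classical
  unfold Sg
  simp

theorem CN_single (A B : Finset (Fin q)) (hB : B ⊆ A) (w : ℝ) :
    ∑ j ∈ A, (if B = {j} then w else 0) = if B.card = 1 then w else 0 := by
  by_cases h : B.card = 1
  · rw [if_pos h]
    obtain ⟨j0, hj0⟩ := Finset.card_eq_one.1 h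
    subst hj0
    have hj : j0 ∈ A := hB (Finset.mem_singleton_self _)
    rw [Finset.sum_eq_single j0]
    · rw [if_pos rfl]
    · intro b _ hb
      rw [if_neg]
      intro h'
      exact hb (Finset.singleton_inj.1 h').symm
    · intro h'
      exact absurd hj h'
  · rw [if_neg h]
    refine Finset.sum_eq_zero (fun j _ => ?_)
    rw [if_neg]
    intro h'
    exact h (by rw [h', Finset.card_singleton])

theorem CN_pt1 (A B : Finset (Fin q)) (hB : B ⊆ A) (w : ℝ) :
    ∑ j ∈ A, (if B = {j} then w else 0) + (if 2 ≤ B.card then w else 0) +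
      (if B = ∅ then w else 0) = w := by
  rw [CN_single A B hB w]
  rcases Nat.lt_trichotomy B.card 1 with h | h | h
  · have h0 : B.card = 0 := by omega
    have hB0 : B = ∅ := Finset.card_eq_zero.1 h0
    rw [if_neg (by omega), if_neg (by omega), if_pos hB0]
    ring
  · have hne : B ≠ ∅ := by
      intro h'
      rw [h', Finset.card_empty] at h
      omega
    rw [if_pos h, if_neg (by omega), if_neg hne]
    ring
  · have hne : B ≠ ∅ := by
      intro h'
      rw [h', Finset.card_empty] at h
      omega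
    rw [if_neg (by omega), if_pos (by omega), if_neg hne]
    ring

theorem CN_count (S : TSys ι q D) (A : Finset (Fin q)) :
    ∑ j ∈ A, S.p j = ∑ s, ((S.T s ∩ A).card : ℝ) * S.w s := by
  unfold TSys.p
  rw [Finset.sum_comm]
  refine Finset.sum_congr rfl (fun s _ => ?_)
  rw [← Finset.sum_filter, Finset.sum_const, nsmul_eq_mul]
  congr 2
  rw [Finset.filter_mem_eq_inter, Finset.inter_comm]

end

theorem stmt_CN : Stmt_CN := by
  intro ι _ _ q D S
  refine ⟨⟨CN_nonneg S _, CN_le_one S _, CN_nonneg S _, CN_le_one S _, ?_⟩, ?_, ?_, ?_, ?_⟩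
  · simp only [CN_mm, CN_rr, CN_zz]
    rw [Finset.sum_comm, ← Finset.sum_add_distrib, ← Finset.sum_add_distrib, ← S.w_sum]
    refine Finset.sum_congr rfl (fun s _ => ?_)
    exact CN_pt1 (Sg S) (S.T s ∩ Sg S) Finset.inter_subset_right (S.w s)
  · intro j hj
    refine ⟨CN_nonneg S _, ?_, CN_nonneg S _, ?_, ?_, ?_⟩
    · refine CN_mono S (fun s hs => ?_)
      rw [hs]
      exact Finset.inter_eq_left.2 (Finset.singleton_subset_iff.2 hj)
    · exact CN_mono S (fun s hs => hs.2)
    · rw [CN_mm, CN_rj]
      unfold TSys.p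
      rw [← Finset.sum_add_distrib]
      refine Finset.sum_congr rfl (fun s _ => ?_)
      by_cases h : j ∈ S.T s
      · have hjB : j ∈ S.T s ∩ Sg S := Finset.mem_inter.2 ⟨h, hj⟩
        rw [if_pos h]
        by_cases h1 : S.T s ∩ Sg S = {j}
        · have h2 : ¬ (j ∈ S.T s ∧ 2 ≤ (S.T s ∩ Sg S).card) := by
            rintro ⟨_, h2⟩
            rw [h1, Finset.card_singleton] at h2
            omega
          rw [if_pos h1, if_neg h2]
          ring
        · have h2 : j ∈ S.T s ∧ 2 ≤ (S.T s ∩ Sg S).card := by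
            refine ⟨h, ?_⟩
            by_contra h3
            have h4 : (S.T s ∩ Sg S).card ≤ 1 := by omega
            have h5 := Finset.card_le_one.1 h4
            exact h1 (Finset.eq_singleton_iff_unique_mem.2 ⟨hjB, fun x hx => h5 x hx j hjB⟩)
          rw [if_neg h1, if_pos h2]
          ring
      · have h1 : ¬ (S.T s ∩ Sg S = {j}) := by
          intro h1
          have : j ∈ S.T s ∩ Sg S := by rw [h1]; exact Finset.mem_singleton_self _
          exact h (Finset.mem_inter.1 this).1
        have h2 : ¬ (j ∈ S.T s ∧ 2 ≤ (S.T s ∩ Sg S).card) := fun h2 => h h2.1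
        rw [if_neg h, if_neg h1, if_neg h2]
        ring
    · obtain ⟨s, hs⟩ := (CN_mem S j).1 hj
      have hw := S.w_pos s
      have h1 : D * S.w s ≤ S.p j * S.w s := by
        rw [← S.row s]
        unfold TSys.p
        rw [Finset.sum_mul]
        refine Finset.sum_le_sum (fun t _ => ?_)
        by_cases h : j ∈ S.T t
        · rw [if_pos h]
          have := S.le s t
          linarith
        · rw [if_neg h, S.zero s t (by rw [hs]; exact Finset.disjoint_singleton_left.2 h)]
          simp
      exact le_of_mul_le_mul_right h1 hw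
  · rw [CN_count S (Sg S)]
    have h1 : 1 + rr S - zz S = ∑ s, (S.w s + (if 2 ≤ (S.T s ∩ Sg S).card then S.w s else 0) -
        (if S.T s ∩ Sg S = ∅ then S.w s else 0)) := by
      rw [Finset.sum_sub_distrib, Finset.sum_add_distrib, S.w_sum, CN_rr, CN_zz]
    rw [h1]
    refine Finset.sum_le_sum (fun s _ => ?_)
    have hw := (S.w_pos s).le
    generalize hB : S.T s ∩ Sg S = B
    rcases Nat.lt_trichotomy B.card 1 with h | h | h
    · have h0 : B.card = 0 := by omega
      rw [if_neg (by omega), if_pos (Finset.card_eq_zero.1 h0), h0]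
      simp
    · have hne : B ≠ ∅ := by
        intro h'
        rw [h', Finset.card_empty] at h
        omega
      rw [if_neg (by omega), if_neg hne, h]
      simp
    · have hne : B ≠ ∅ := by
        intro h'
        rw [h', Finset.card_empty] at h
        omega
      rw [if_pos (by omega), if_neg hne]
      have h2 : (2 : ℝ) ≤ (B.card : ℝ) := by exact_mod_cast h
      nlinarith
  · rw [CN_count S (univ \ Sg S)]
    have h1 : ∑ j ∈ Sg S, (mm S j - nn S j) + 2 * zz S =
        ∑ s, (∑ j ∈ Sg S, (if S.T s ∩ Sg S = {j} then S.w s else 0) -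
          ∑ j ∈ Sg S, (if S.T s = {j} then S.w s else 0) +
          2 * (if S.T s ∩ Sg S = ∅ then S.w s else 0)) := by
      simp only [CN_mm, CN_nn, CN_zz]
      rw [Finset.sum_sub_distrib, Finset.sum_add_distrib, Finset.sum_sub_distrib, Finset.mul_sum]
      rw [Finset.sum_comm (s := Sg S) (t := univ), Finset.sum_comm (s := Sg S) (t := univ)]
    rw [h1]
    refine Finset.sum_le_sum (fun s _ => ?_)
    have hw := (S.w_pos s).le
    have hcomp : S.T s ∩ (univ \ Sg S) = S.T s \ Sg S := by
      ext x
      simp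
    rw [hcomp, CN_single (Sg S) (S.T s ∩ Sg S) Finset.inter_subset_right (S.w s)]
    have hsum0 : 0 ≤ ∑ j ∈ Sg S, (if S.T s = {j} then S.w s else 0) := by
      refine Finset.sum_nonneg (fun j _ => ?_)
      by_cases h : S.T s = {j}
      · rw [if_pos h]; exact hw
      · rw [if_neg h]
    have hcard : (S.T s \ Sg S).card + (S.T s ∩ Sg S).card = (S.T s).card :=
      Finset.card_sdiff_add_card_inter _ _
    have hne := (S.ne s).card_pos
    have hc0 : (0 : ℝ) ≤ ((S.T s \ Sg S).card : ℝ) := Nat.cast_nonneg _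
    rcases Nat.lt_trichotomy (S.T s ∩ Sg S).card 1 with h | h | h
    · have h0 : (S.T s ∩ Sg S).card = 0 := by omega
      have hemp : S.T s ∩ Sg S = ∅ := Finset.card_eq_zero.1 h0
      rw [if_neg (by omega), if_pos hemp]
      have h2 : 2 ≤ (S.T s \ Sg S).card := by
        by_contra h3
        have h4 : (S.T s).card = 1 := by omega
        obtain ⟨x, hx⟩ := Finset.card_eq_one.1 h4
        have hxA : x ∈ Sg S := (CN_mem S x).2 ⟨s, hx⟩
        have hxB : x ∈ S.T s ∩ Sg S :=
          Finset.mem_inter.2 ⟨by rw [hx]; exact Finset.mem_singleton_self _, hxA⟩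
        rw [hemp] at hxB
        exact absurd hxB (Finset.notMem_empty _)
      have h2' : (2 : ℝ) ≤ ((S.T s \ Sg S).card : ℝ) := by exact_mod_cast h2
      nlinarith
    · have hne' : S.T s ∩ Sg S ≠ ∅ := by
        intro h'
        rw [h', Finset.card_empty] at h
        omega
      rw [if_pos h, if_neg hne']
      by_cases h5 : (S.T s).card = 1
      · obtain ⟨x, hx⟩ := Finset.card_eq_one.1 h5
        have hxA : x ∈ Sg S := (CN_mem S x).2 ⟨s, hx⟩
        have h6 : ∑ j ∈ Sg S, (if S.T s = {j} then S.w s else 0) = S.w s := by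
          rw [hx, CN_single (Sg S) {x} (Finset.singleton_subset_iff.2 hxA) (S.w s),
            if_pos (Finset.card_singleton _)]
        rw [h6]
        nlinarith
      · have h6 : 1 ≤ (S.T s \ Sg S).card := by omega
        have h6' : (1 : ℝ) ≤ ((S.T s \ Sg S).card : ℝ) := by exact_mod_cast h6
        nlinarith
    · have hne' : S.T s ∩ Sg S ≠ ∅ := by
        intro h'
        rw [h', Finset.card_empty] at h
        omega
      rw [if_neg (by omega), if_neg hne']
      nlinarith [mul_nonneg hc0 hw]
  · intro x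
    have hp : S.p x = mass S (fun s => x ∈ S.T s) := by
      unfold TSys.p mass
      refine Finset.sum_congr rfl (fun s _ => ?_)
      by_cases h : x ∈ S.T s
      · rw [if_pos h, if_pos h]
      · rw [if_neg h, if_neg h]
    rw [hp]
    exact ⟨CN_nonneg S _, CN_le_one S _⟩

end Pool.Agent.Work.MP_1ce445_hub
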