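import Pool.Agent.Work.MP_1ce445_hub.Interface

/-! # Block ED: edges (typed by helper73) -/

namespace Pool.Agent.Work.MP_1ce445_hub

open Finset Pool.Agent.Work.MP_1ce445_low

open Classical in
/-- the indicator of a proposition -/
noncomputable def ED_i (p : Prop) : ℝ := if p then 1 else 0

theorem ED_i_t {p : Prop} (h : p) : ED_i p = 1 := by
  unfold ED_i
  rw [if_pos h]

theorem ED_i_f {p : Prop} (h : ¬ p) : ED_i p = 0 := by
  unfold ED_i
  rw [if_neg h]

theorem ED_i_nn (p : Prop) : 0 ≤ ED_i p := by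
  by_cases h : p
  · rw [ED_i_t h]
    exact zero_le_one
  · rw [ED_i_f h]

theorem ED_mass {ι : Type} [Fintype ι] [DecidableEq ι] {q : ℕ} {D : ℝ} (S : TSys ι q D)
    (P : ι → Prop) : mass S P = ∑ s, ED_i (P s) * S.w s := by
  unfold mass
  refine Finset.sum_congr rfl fun s _ => ?_
  by_cases h : P s
  · rw [if_pos h, ED_i_t h, one_mul]
  · rw [if_neg h, ED_i_f h, zero_mul]

theorem ED_x0 {ι : Type} [Fintype ι] [DecidableEq ι] {q : ℕ} {D : ℝ} (S : TSys ι q D)
    {j : Fin q} {s t : ι} (hs : S.T s = {j}) (ht : j ∉ S.T t) : S.x s t = 0 := by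
  apply S.zero
  rw [hs, Finset.disjoint_singleton_left]
  exact ht

theorem ED_row {ι : Type} [Fintype ι] [DecidableEq ι] {q : ℕ} {D : ℝ} (S : TSys ι q D)
    {j : Fin q} (hj : j ∈ Sg S) {s : ι} (hs : S.T s = {j}) :
    S.w s * max (D - mm S j) 0 ≤ ∑ t, ED_i (2 ≤ (S.T t ∩ Sg S).card) * S.x s t := by
  rw [mul_max_of_nonneg _ _ (S.w_pos s).le, mul_zero]
  refine max_le ?_ (Finset.sum_nonneg fun t _ => mul_nonneg (ED_i_nn _) (S.nonneg s t))
  have key : ∀ t, S.x s t ≤ ED_i (2 ≤ (S.T t ∩ Sg S).card) * S.x s t +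
      S.w s * (ED_i (S.T t ∩ Sg S = {j}) * S.w t) := by
    intro t
    have h0 : 0 ≤ S.w s * (ED_i (S.T t ∩ Sg S = {j}) * S.w t) :=
      mul_nonneg (S.w_pos s).le (mul_nonneg (ED_i_nn _) (S.w_pos t).le)
    by_cases hG : 2 ≤ (S.T t ∩ Sg S).card
    · rw [ED_i_t hG, one_mul]
      linarith
    · by_cases hjt : j ∈ S.T t
      · have hm : j ∈ S.T t ∩ Sg S := Finset.mem_inter.2 ⟨hjt, hj⟩
        have hc : (S.T t ∩ Sg S).card = 1 := by
          have := Finset.card_pos.2 ⟨j, hm⟩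
          omega
        have he : S.T t ∩ Sg S = {j} := by
          obtain ⟨a, ha⟩ := Finset.card_eq_one.1 hc
          rw [ha, Finset.mem_singleton] at hm
          rw [ha, hm]
        rw [ED_i_f hG, ED_i_t he, zero_mul, one_mul, zero_add]
        exact S.le s t
      · rw [ED_x0 S hs hjt, mul_zero, zero_add]
        exact h0
  have h1 := Finset.sum_le_sum fun t (_ : t ∈ (univ : Finset ι)) => key t
  rw [S.row, Finset.sum_add_distrib, ← Finset.mul_sum, ← ED_mass] at h1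
  have h2 : mass S (fun t => S.T t ∩ Sg S = {j}) = mm S j := rfl
  rw [h2] at h1
  linarith

theorem ED_total {ι : Type} [Fintype ι] [DecidableEq ι] {q : ℕ} {D : ℝ} (S : TSys ι q D)
    (P : ι → Prop) : D * mass S P = ∑ s, ∑ t, ED_i (P t) * S.x s t := by
  rw [Finset.sum_comm, ED_mass, Finset.mul_sum]
  refine Finset.sum_congr rfl fun t _ => ?_
  rw [← Finset.mul_sum]
  have h : ∑ s, S.x s t = D * S.w t := by
    rw [← S.row t]
    exact Finset.sum_congr rfl fun s _ => S.symm s t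
  rw [h]
  ring

theorem ED_first {ι : Type} [Fintype ι] [DecidableEq ι] {q : ℕ} {D : ℝ} (S : TSys ι q D) :
    ∑ j ∈ Sg S, nn S j * max (D - mm S j) 0 ≤ D * rr S := by
  have h0 : D * rr S = ∑ s, ∑ t, ED_i (2 ≤ (S.T t ∩ Sg S).card) * S.x s t := ED_total S _
  rw [h0]
  have h1 : ∀ j ∈ Sg S, nn S j * max (D - mm S j) 0 ≤
      ∑ s, ED_i (S.T s = {j}) * ∑ t, ED_i (2 ≤ (S.T t ∩ Sg S).card) * S.x s t := by
    intro j hj
    unfold nn
    rw [ED_mass, Finset.sum_mul]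
    refine Finset.sum_le_sum fun s _ => ?_
    by_cases hs : S.T s = {j}
    · rw [ED_i_t hs, one_mul, one_mul]
      exact ED_row S hj hs
    · rw [ED_i_f hs, zero_mul, zero_mul, zero_mul]
  refine (Finset.sum_le_sum h1).trans ?_
  rw [Finset.sum_comm]
  refine Finset.sum_le_sum fun s _ => ?_
  rw [← Finset.sum_mul]
  have hE : 0 ≤ ∑ t, ED_i (2 ≤ (S.T t ∩ Sg S).card) * S.x s t :=
    Finset.sum_nonneg fun t _ => mul_nonneg (ED_i_nn _) (S.nonneg s t)
  have h2 : ∑ j ∈ Sg S, ED_i (S.T s = {j}) ≤ 1 := by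
    by_cases hex : ∃ j ∈ Sg S, S.T s = {j}
    · obtain ⟨j, hj, hs⟩ := hex
      rw [Finset.sum_eq_single_of_mem j hj, ED_i_t hs]
      intro i _ hij
      apply ED_i_f
      rw [hs, Finset.singleton_inj]
      exact fun h => hij h.symm
    · push Not at hex
      rw [Finset.sum_eq_zero fun j hj => ED_i_f (hex j hj)]
      exact zero_le_one
  calc (∑ j ∈ Sg S, ED_i (S.T s = {j})) * ∑ t, ED_i (2 ≤ (S.T t ∩ Sg S).card) * S.x s t ≤
      1 * ∑ t, ED_i (2 ≤ (S.T t ∩ Sg S).card) * S.x s t := mul_le_mul_of_nonneg_right h2 hE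
    _ = _ := one_mul _

theorem ED_second {ι : Type} [Fintype ι] [DecidableEq ι] {q : ℕ} {D : ℝ} (S : TSys ι q D)
    {i j : Fin q} (hi : i ∈ Sg S) (hj : j ∈ Sg S) (hij : i ≠ j) :
    nn S i * max (D - mm S i) 0 + nn S j * (D - mm S j - rr S + rj S i) ≤ D * rj S i := by
  have h0 : D * rj S i = ∑ s, ∑ t, ED_i (i ∈ S.T t ∧ 2 ≤ (S.T t ∩ Sg S).card) * S.x s t :=
    ED_total S _
  rw [h0]
  have hF : ∀ s, 0 ≤ ∑ t, ED_i (i ∈ S.T t ∧ 2 ≤ (S.T t ∩ Sg S).card) * S.x s t := fun s =>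
    Finset.sum_nonneg fun t _ => mul_nonneg (ED_i_nn _) (S.nonneg s t)
  have h1 : nn S i * max (D - mm S i) 0 ≤ ∑ s, ED_i (S.T s = {i}) *
      ∑ t, ED_i (i ∈ S.T t ∧ 2 ≤ (S.T t ∩ Sg S).card) * S.x s t := by
    unfold nn
    rw [ED_mass, Finset.sum_mul]
    refine Finset.sum_le_sum fun s _ => ?_
    by_cases hs : S.T s = {i}
    · rw [ED_i_t hs, one_mul, one_mul]
      refine (ED_row S hi hs).trans (le_of_eq ?_)
      refine Finset.sum_congr rfl fun t _ => ?_
      by_cases hit : i ∈ S.T t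
      · by_cases hG : 2 ≤ (S.T t ∩ Sg S).card
        · rw [ED_i_t hG, ED_i_t ⟨hit, hG⟩]
        · rw [ED_i_f hG, ED_i_f fun h => hG h.2]
      · rw [ED_x0 S hs hit, mul_zero, mul_zero]
    · rw [ED_i_f hs, zero_mul, zero_mul, zero_mul]
  have h2 : nn S j * (D - mm S j - rr S + rj S i) ≤ ∑ s, ED_i (S.T s = {j}) *
      ∑ t, ED_i (i ∈ S.T t ∧ 2 ≤ (S.T t ∩ Sg S).card) * S.x s t := by
    unfold nn
    rw [ED_mass, Finset.sum_mul]
    refine Finset.sum_le_sum fun s _ => ?_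
    by_cases hs : S.T s = {j}
    · rw [ED_i_t hs, one_mul, one_mul]
      have h3 := ED_row S hj hs
      have h4 : S.w s * (D - mm S j) ≤ S.w s * max (D - mm S j) 0 :=
        mul_le_mul_of_nonneg_left (le_max_left _ _) (S.w_pos s).le
      have key : ∀ t, ED_i (2 ≤ (S.T t ∩ Sg S).card) * S.x s t ≤
          ED_i (i ∈ S.T t ∧ 2 ≤ (S.T t ∩ Sg S).card) * S.x s t +
          S.w s * (ED_i (2 ≤ (S.T t ∩ Sg S).card) * S.w t -
            ED_i (i ∈ S.T t ∧ 2 ≤ (S.T t ∩ Sg S).card) * S.w t) := by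
        intro t
        by_cases hG : 2 ≤ (S.T t ∩ Sg S).card
        · by_cases hit : i ∈ S.T t
          · rw [ED_i_t hG, ED_i_t ⟨hit, hG⟩]
            linarith
          · have hn : ¬ (i ∈ S.T t ∧ 2 ≤ (S.T t ∩ Sg S).card) := fun h => hit h.1
            rw [ED_i_t hG, ED_i_f hn]
            have := S.le s t
            linarith
        · have hn : ¬ (i ∈ S.T t ∧ 2 ≤ (S.T t ∩ Sg S).card) := fun h => hG h.2
          rw [ED_i_f hG, ED_i_f hn]
          linarith
      have h5 := Finset.sum_le_sum fun t (_ : t ∈ (univ : Finset ι)) => key t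
      rw [Finset.sum_add_distrib, ← Finset.mul_sum, Finset.sum_sub_distrib, ← ED_mass,
        ← ED_mass] at h5
      have h6 : mass S (fun t => 2 ≤ (S.T t ∩ Sg S).card) = rr S := rfl
      have h7 : mass S (fun t => i ∈ S.T t ∧ 2 ≤ (S.T t ∩ Sg S).card) = rj S i := rfl
      rw [h6, h7] at h5
      have h8 : S.w s * (D - mm S j - rr S + rj S i) =
          S.w s * (D - mm S j) - S.w s * (rr S - rj S i) := by ring
      rw [h8]
      linarith
    · rw [ED_i_f hs, zero_mul, zero_mul, zero_mul]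
  refine (add_le_add h1 h2).trans ?_
  rw [← Finset.sum_add_distrib]
  refine Finset.sum_le_sum fun s _ => ?_
  have hs := hF s
  by_cases hsi : S.T s = {i}
  · have hsj : ¬ S.T s = {j} := by
      rw [hsi, Finset.singleton_inj]
      exact hij
    rw [ED_i_t hsi, ED_i_f hsj]
    linarith
  · by_cases hsj : S.T s = {j}
    · rw [ED_i_f hsi, ED_i_t hsj]
      linarith
    · rw [ED_i_f hsi, ED_i_f hsj]
      linarith

/-- Block ED. -/
theorem stmt_ED (_h1 : Stmt_CN) : Stmt_ED := by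
  intro ι _ _ q D S
  exact ⟨ED_first S, fun i hi j hj hij => ED_second S hi hj hij⟩

end Pool.Agent.Work.MP_1ce445_hub
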