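import Pool.Agent.Work.MP_1ce445_hub.Interface
import Pool.Agent.Work.MP_1ce445_low.A27

namespace Pool.Agent.Work.MP_1ce445_hub

open Finset Pool.Agent.Work.MP_1ce445_low

/-- Block FW. -/
theorem stmt_FW (h1 : Stmt_RL) (h2 : Stmt_TB) (h3 : Stmt_TG) : Stmt_FW := by
  intro m c H hm hc0 hc1 hc2 hrel
  have hne : {v : ℝ | HasVal (1 - c) v}.Nonempty := ⟨1 / 27, stmt_A27 (1 - c) (by linarith) (by linarith)⟩
  refine csSup_le hne ?_
  rintro v ⟨ι, i1, i2, q, S, rfl⟩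
  rcases lt_trichotomy (Sg S).card (m + 1) with h | h | h
  · exact le_trans (h2 ι q m (1 - c) S hm (by omega)) (le_max_left _ _)
  · obtain ⟨a, ρ, d, r, z, hR, hd, hv⟩ := h1 ι q m c S h
    exact le_trans hv (hrel a ρ d r z hR hd)
  · exact le_trans (h3 ι q m c S hm hc0.le hc2 (by omega)) (le_max_left _ _)

end Pool.Agent.Work.MP_1ce445_hub
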