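import Pool.Agent.Work.MP_1ce445_hub.Interface

/-!
Block RL of MP_1ce445_hub: the real data of a type system with exactly `m + 1` singleton elements.
-/

namespace Pool.Agent.Work.MP_1ce445_hub

open Finset Pool.Agent.Work.MP_1ce445_low

theorem RL_sum {q m : ℕ} (A : Finset (Fin q)) (e : Fin (m + 1) ≃ {x // x ∈ A}) (f : Fin q → ℝ) :
    ∑ j, f (e j : Fin q) = ∑ x ∈ A, f x := by
  rw [← Finset.sum_coe_sort A f]
  exact Equiv.sum_comp e (fun x => f (x : Fin q))

theorem RL_prod {q m : ℕ} (A : Finset (Fin q)) (e : Fin (m + 1) ≃ {x // x ∈ A}) (f : Fin q → ℝ) :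
    ∏ j, f (e j : Fin q) = ∏ x ∈ A, f x := by
  rw [← Finset.prod_coe_sort A f]
  exact Equiv.prod_comp e (fun x => f (x : Fin q))

theorem RL_exp {q : ℕ} (B : Finset (Fin q)) (f : Fin q → ℝ) (h : ∀ x ∈ B, f x ≤ 1) :
    ∏ x ∈ B, (1 - f x) ≤ Real.exp (-∑ x ∈ B, f x) := by
  rw [← Finset.sum_neg_distrib, Real.exp_sum]
  apply Finset.prod_le_prod
  · intro x hx
    linarith [h x hx]
  · intro x _
    have := Real.add_one_le_exp (-f x)
    linarith

theorem stmt_RL (hCN : Stmt_CN) (hED : Stmt_ED) : Stmt_RL := by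
  intro ι _ _ q m c S hcard
  obtain ⟨⟨r0, r1, z0, z1, hs⟩, hA, hp1, hp2, hp⟩ := hCN ι q (1 - c) S
  obtain ⟨ht, hi⟩ := hED ι q (1 - c) S
  let e : Fin (m + 1) ≃ {x // x ∈ Sg S} := (Finset.equivFinOfCardEq hcard).symm
  have he : ∀ j, (e j : Fin q) ∈ Sg S := fun j => (e j).2
  have hsm := RL_sum (Sg S) e (fun x => mm S x)
  have hsn := RL_sum (Sg S) e (fun x => nn S x)
  have hsp := RL_sum (Sg S) e (fun x => S.p x)
  have hst := RL_sum (Sg S) e (fun x => nn S x * max (1 - c - mm S x) 0)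
  have hc1 : ∑ _j : Fin (m + 1), (1 - c) = ((m : ℝ) + 1) * (1 - c) := by
    rw [Finset.sum_const, Finset.card_univ, Fintype.card_fin, nsmul_eq_mul]
    push_cast
    ring
  refine ⟨fun j => 1 - c - mm S (e j), fun j => mm S (e j) - nn S (e j),
    fun j => S.p (e j) - (1 - c), rr S, zz S, ?_, ?_, ?_⟩
  · refine ⟨r0, z0, ?_, ?_, ?_, ?_, ?_, ?_, ?_, ?_, ?_⟩
    · intro j
      obtain ⟨_, h2, _⟩ := hA (e j) (he j)
      linarith
    · intro j
      obtain ⟨_, _, _, _, _, h6⟩ := hA (e j) (he j)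
      linarith
    · intro j
      obtain ⟨_, _, h3, _, h5, _⟩ := hA (e j) (he j)
      linarith
    · intro j
      obtain ⟨_, _, _, h4, h5, _⟩ := hA (e j) (he j)
      linarith
    · intro j
      obtain ⟨h1, _⟩ := hA (e j) (he j)
      linarith
    · rw [Finset.sum_sub_distrib, hc1, hsm]
      linarith
    · rw [Finset.sum_sub_distrib, hc1, hsp]
      linarith
    · have h1 : ∑ j : Fin (m + 1), (1 - c - (1 - c - mm S (e j)) - (mm S (e j) - nn S (e j))) *
          max (1 - c - mm S (e j)) 0 = ∑ x ∈ Sg S, nn S x * max (1 - c - mm S x) 0 := by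
        rw [← hst]
        apply Finset.sum_congr rfl
        intro j _
        have : 1 - c - (1 - c - mm S (e j)) - (mm S (e j) - nn S (e j)) = nn S (e j) := by ring
        rw [this]
      rw [h1]
      exact ht
    · intro j0 i hij
      have hne : (e i : Fin q) ≠ (e j0 : Fin q) := by
        intro h
        exact hij (e.injective (Subtype.ext h))
      have h1 := hi (e i) (he i) (e j0) (he j0) hne
      obtain ⟨_, _, _, _, h5, _⟩ := hA (e i) (he i)
      have e1 : 1 - c - (1 - c - mm S (e i)) - (mm S (e i) - nn S (e i)) = nn S (e i) := by ring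
      have e2 : 1 - c - (1 - c - mm S (e j0)) - (mm S (e j0) - nn S (e j0)) = nn S (e j0) := by
        ring
      have e3 : 1 - c - mm S (e i) + (S.p (e i) - (1 - c)) = rj S (e i) := by
        rw [h5]; ring
      have e4 : 1 - c - mm S (e j0) + (mm S (e j0) - nn S (e j0)) = 1 - c - nn S (e j0) := by
        ring
      rw [e1, e2, e3, e4]
      have e5 : (1 - c - nn S (e j0)) * rj S (e i) +
          nn S (e j0) * (rr S - (1 - c - mm S (e j0))) =
          (1 - c) * rj S (e i) - nn S (e j0) * (1 - c - mm S (e j0) - rr S + rj S (e i)) := by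
        ring
      rw [e5]
      linarith
  · intro j
    have := (hp (e j)).2
    linarith
  · have hv : S.val = (∏ x ∈ Sg S, (1 - S.p x)) * ∏ x ∈ univ \ Sg S, (1 - S.p x) := by
      unfold TSys.val
      rw [mul_comm]
      exact (Finset.prod_sdiff (Finset.subset_univ (Sg S))).symm
    have h1 : ∏ j : Fin (m + 1), (c - (S.p (e j) - (1 - c))) = ∏ x ∈ Sg S, (1 - S.p x) := by
      rw [← RL_prod (Sg S) e (fun x => 1 - S.p x)]
      apply Finset.prod_congr rfl
      intro j _
      ring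
    have h2 : 0 ≤ ∏ x ∈ Sg S, (1 - S.p x) :=
      Finset.prod_nonneg (fun x _ => by linarith [(hp x).2])
    have h3 := RL_exp (univ \ Sg S) (fun x => S.p x) (fun x _ => (hp x).2)
    have h4 : Real.exp (-∑ x ∈ univ \ Sg S, S.p x) ≤
        Real.exp (-(∑ j : Fin (m + 1), (mm S (e j) - nn S (e j)) + 2 * zz S)) := by
      apply Real.exp_le_exp.2
      rw [Finset.sum_sub_distrib, hsm, hsn]
      rw [Finset.sum_sub_distrib] at hp2
      linarith
    rw [hv, h1]
    exact mul_le_mul_of_nonneg_left (h3.trans h4) h2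

end Pool.Agent.Work.MP_1ce445_hub
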