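import Pool.Agent.Work.MP_1ce445_hub.Interface

/-! Block TG of MP_1ce445_hub: at least `m + 2` singleton elements. -/

namespace Pool.Agent.Work.MP_1ce445_hub

open Finset Pool.Agent.Work.MP_1ce445_low

theorem stmt_TG (h1 : Stmt_CN) (h2 : Pool.Agent.Work.MP_1ce445_upg.Stmt_POW) : Stmt_TG := by
  intro ι _ _ q m c S hm hc0 hc hA
  obtain ⟨-, hj, -, -, hp⟩ := h1 ι q (1 - c) S
  have hm0 : (0 : ℝ) < (m : ℝ) + 1 := by positivity
  have hc1 : c ≤ 1 := by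
    have : 0 < 1 / ((m : ℝ) + 1) := by positivity
    linarith
  have hsplit : S.val = (∏ a ∈ Sg S, (1 - S.p a)) * ∏ a ∈ univ \ Sg S, (1 - S.p a) := by
    unfold TSys.val
    rw [mul_comm, Finset.prod_sdiff (Finset.subset_univ (Sg S))]
  have hA1 : ∏ a ∈ Sg S, (1 - S.p a) ≤ c ^ (Sg S).card := by
    rw [← Finset.prod_const]
    refine Finset.prod_le_prod (fun a _ => by linarith [(hp a).2]) (fun a ha => ?_)
    linarith [(hj a ha).2.2.2.2.2]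
  have hA0 : 0 ≤ ∏ a ∈ Sg S, (1 - S.p a) :=
    Finset.prod_nonneg fun a _ => by linarith [(hp a).2]
  have hB1 : ∏ a ∈ univ \ Sg S, (1 - S.p a) ≤ 1 :=
    Finset.prod_le_one (fun a _ => by linarith [(hp a).2]) (fun a _ => by linarith [(hp a).1])
  calc S.val = (∏ a ∈ Sg S, (1 - S.p a)) * ∏ a ∈ univ \ Sg S, (1 - S.p a) := hsplit
    _ ≤ (∏ a ∈ Sg S, (1 - S.p a)) * 1 := mul_le_mul_of_nonneg_left hB1 hA0
    _ ≤ c ^ (Sg S).card := by rw [mul_one]; exact hA1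
    _ ≤ c ^ (m + 2) := pow_le_pow_of_le_one hc0 hc1 hA
    _ ≤ (1 - 1 / (m : ℝ)) ^ m := h2 m c hm hc0 hc

end Pool.Agent.Work.MP_1ce445_hub
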