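import Mathlib

/-!
The value of the hub family (windows above `1/2` for MP_1ce445_co).
-/

namespace Pool.Agent.Work.MP_1ce445_hub

open Finset

/-- the mass of the hub types: `R² = D δ - ∑ y_i²`, `D = 1 - c`, `δ = (m + 1) D - 1` -/
noncomputable def hubR (m : ℕ) (c : ℝ) (y : Fin m → ℝ) : ℝ :=
  Real.sqrt ((1 - c) * (((m : ℝ) + 1) * (1 - c) - 1) - ∑ i, y i ^ 2)

/-- the value of the hub system with the parameters `y` (`y_i ≥ 0`, `∑ y_i = δ`): types `{0}` of weight `D - R`, `{i}` of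
weight `D - y_i`, `{0, i}` of weight `y_i (D - y_i)/R` -/
noncomputable def hubVal (m : ℕ) (c : ℝ) (y : Fin m → ℝ) : ℝ :=
  c * ∏ i, (c - (y i * (1 - c - y i) / hubR m c y - y i))

/-- the symmetric hub value: `y_i = δ/m`, `R_m = √(δ (D - δ/m))` -/
noncomputable def hubSym (m : ℕ) (c : ℝ) : ℝ :=
  c * (c - (Real.sqrt ((((m : ℝ) + 1) * (1 - c) - 1) * (1 - c - (((m : ℝ) + 1) * (1 - c) - 1) / m)) -
    (((m : ℝ) + 1) * (1 - c) - 1)) / m) ^ m

end Pool.Agent.Work.MP_1ce445_hub
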