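import Pool.Agent.Work.MP_1ce445_low.Interface3
import Pool.Agent.Work.MP_1ce445_upg.Interface

/-!
The windows above `1/2` for MP_1ce445_co, GRAPH SIDE: from an exact type system (`TSys`, MP_1ce445_low) with exactly
`m + 1` singleton elements to the real data `Rel`. Definitions and statements of the blocks, with complete proofs in the
docstrings.

One file `Pool/Agent/Work/MP_1ce445_hub/<ID>.lean` per block, `import Pool.Agent.Work.MP_1ce445_hub.Interface`,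
same `open` line, theorem `stmt_<ID>` with exactly the statements of the column `uses` as hypotheses, in this order;
auxiliary lemmas with the name of the block in front.

Notation: `S` a type system with `D = 1 - c`; the mass of a predicate on the types is `mass S P = ∑ s, if P s then w s else 0`.
`A = Sg S` = the elements `j` such that some type is `{j}`.
-/

namespace Pool.Agent.Work.MP_1ce445_hub

open Finset Pool.Agent.Work.MP_1ce445_low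

open Classical in
/-- the mass of the types with property `P` -/
noncomputable def mass {ι : Type} [Fintype ι] [DecidableEq ι] {q : ℕ} {D : ℝ} (S : TSys ι q D) (P : ι → Prop) : ℝ :=
  ∑ s, if P s then S.w s else 0

open Classical in
/-- the elements `j` such that some type is `{j}` -/
noncomputable def Sg {ι : Type} [Fintype ι] [DecidableEq ι] {q : ℕ} {D : ℝ} (S : TSys ι q D) : Finset (Fin q) :=
  univ.filter (fun j => ∃ s, S.T s = {j})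

/-- `n_j`: mass of the types `{j}` -/
noncomputable def nn {ι : Type} [Fintype ι] [DecidableEq ι] {q : ℕ} {D : ℝ} (S : TSys ι q D) (j : Fin q) : ℝ :=
  mass S (fun s => S.T s = {j})

/-- `m_j`: mass of the types with `T ∩ A = {j}` -/
noncomputable def mm {ι : Type} [Fintype ι] [DecidableEq ι] {q : ℕ} {D : ℝ} (S : TSys ι q D) (j : Fin q) : ℝ :=
  mass S (fun s => S.T s ∩ Sg S = {j})

/-- `r_j`: mass of the types with `j ∈ T` and `|T ∩ A| ≥ 2` -/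
noncomputable def rj {ι : Type} [Fintype ι] [DecidableEq ι] {q : ℕ} {D : ℝ} (S : TSys ι q D) (j : Fin q) : ℝ :=
  mass S (fun s => j ∈ S.T s ∧ 2 ≤ (S.T s ∩ Sg S).card)

/-- `r`: mass of the types with `|T ∩ A| ≥ 2` -/
noncomputable def rr {ι : Type} [Fintype ι] [DecidableEq ι] {q : ℕ} {D : ℝ} (S : TSys ι q D) : ℝ :=
  mass S (fun s => 2 ≤ (S.T s ∩ Sg S).card)

/-- `z`: mass of the types with `T ∩ A = ∅` -/
noncomputable def zz {ι : Type} [Fintype ι] [DecidableEq ι] {q : ℕ} {D : ℝ} (S : TSys ι q D) : ℝ :=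
  mass S (fun s => S.T s ∩ Sg S = ∅)

/-- CN (150 lines), counting. All masses are in `[0, 1]`. (1) The types are partitioned by `|T ∩ A|` into `0`, `1`, `≥ 2`,
and those with `|T ∩ A| = 1` by the element: `∑_A m_j + r + z = 1`. (2) `j ∈ A`: `T = {j}` implies `T ∩ A = {j}`, so
`n_j ≤ m_j`; `p_j = m_j + r_j` (`j ∈ T`, `j ∈ A`: either `T ∩ A = {j}` or `|T ∩ A| ≥ 2`), `0 ≤ r_j ≤ r`, and
`m_j + r ≤ 1`. (3) `j ∈ A`, `T s = {j}`: `D w_s = ∑_t x s t ≤ ∑_{t : j ∈ T t} w_s w_t = w_s p_j` (`x s t = 0` if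
`T t` and `{j}` are disjoint), so `D ≤ p_j`. (4) `∑_A p_j = ∑_s w_s |T s ∩ A| ≥ (1 - r - z) + 2 r`. (5)
`∑_{x ∉ A} p_x = ∑_s w_s |T s \ A|`, and `|T s \ A| ≥ 1` if `T s ∩ A = {j}`, `T s ≠ {j}`; `≥ 2` if `T s ∩ A = ∅` (`T s` is
nonempty, and `T s = {x}` would give `x ∈ A`). (6) `0 ≤ p_x ≤ 1` for all `x`. -/
def Stmt_CN : Prop :=
  ∀ (ι : Type) [Fintype ι] [DecidableEq ι] (q : ℕ) (D : ℝ) (S : TSys ι q D), 
    (0 ≤ rr S ∧ rr S ≤ 1 ∧ 0 ≤ zz S ∧ zz S ≤ 1 ∧ ∑ j ∈ Sg S, mm S j + rr S + zz S = 1) ∧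
    (∀ j ∈ Sg S, 0 ≤ nn S j ∧ nn S j ≤ mm S j ∧ 0 ≤ rj S j ∧ rj S j ≤ rr S ∧ S.p j = mm S j + rj S j ∧
      D ≤ S.p j) ∧
    1 + rr S - zz S ≤ ∑ j ∈ Sg S, S.p j ∧
    ∑ j ∈ Sg S, (mm S j - nn S j) + 2 * zz S ≤ ∑ x ∈ univ \ Sg S, S.p x ∧
    ∀ x, 0 ≤ S.p x ∧ S.p x ≤ 1

/-- ED (150 lines; uses CN), edges. Let `e(P, Q) = ∑_{s : P s} ∑_{t : Q t} x s t`. (a) For a type `s` with `T s = {j}`, `j ∈ A`:
`∑_{t : j ∈ T t, |T t ∩ A| ≥ 2} x s t ≥ D w_s - ∑_{t : T t ∩ A = {j}} w_s w_t = w_s (D - m_j)`, and it is `≥ 0`. So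
`φ_j := e(T = {j}, j ∈ T and |T ∩ A| ≥ 2) ≥ n_j max (D - m_j) 0`. (b) Total: the sums `φ_j`, `j ∈ A`, count different ordered
pairs `(s, t)` with `|T t ∩ A| ≥ 2`, so `∑_A φ_j ≤ ∑_{t : |T t ∩ A| ≥ 2} ∑_s x s t = D r` (symmetry and `row`). (c) For
`i ≠ j` in `A`: `e(T = {i}, i ∈ T and |T ∩ A| ≥ 2) + e(T = {j}, i ∈ T and |T ∩ A| ≥ 2) ≤ D r_i`. And for `T s = {j}`:
`∑_{t : i ∈ T t, |T t ∩ A| ≥ 2} x s t = ∑_{t : |T t ∩ A| ≥ 2} x s t - ∑_{t : i ∉ T t, |T t ∩ A| ≥ 2} x s t ≥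
w_s (D - m_j) - w_s (r - r_i)` (in the first sum `x s t = 0` unless `j ∈ T t`); sum over `s`: the second term of the left
side is `≥ n_j (D - m_j - r + r_i)`. -/
def Stmt_ED : Prop :=
  ∀ (ι : Type) [Fintype ι] [DecidableEq ι] (q : ℕ) (D : ℝ) (S : TSys ι q D), 
    ∑ j ∈ Sg S, nn S j * max (D - mm S j) 0 ≤ D * rr S ∧
    ∀ i ∈ Sg S, ∀ j ∈ Sg S, i ≠ j →
      nn S i * max (D - mm S i) 0 + nn S j * (D - mm S j - rr S + rj S i) ≤ D * rj S i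

/-- The real data. `D = 1 - c`, `δ = (m + 1) D - 1`, `a_j = D - m_j`, `ρ_j = m_j - n_j`, `d_j = p_j - D = r_j - a_j`,
`r = rr S`, `z = zz S`, `n_j = D - a_j - ρ_j`. -/
structure Rel (m : ℕ) (c : ℝ) (a ρ d : Fin (m + 1) → ℝ) (r z : ℝ) : Prop where
  rpos : 0 ≤ r
  zpos : 0 ≤ z
  rho : ∀ j, 0 ≤ ρ j
  dpos : ∀ j, 0 ≤ d j
  rj0 : ∀ j, 0 ≤ a j + d j
  rj1 : ∀ j, a j + d j ≤ r
  npos : ∀ j, 0 ≤ 1 - c - a j - ρ j
  suma : ∑ j, a j = (((m : ℝ) + 1) * (1 - c) - 1) + r + z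
  sumd : r - (((m : ℝ) + 1) * (1 - c) - 1) - z ≤ ∑ j, d j
  tot : ∑ j, (1 - c - a j - ρ j) * max (a j) 0 ≤ (1 - c) * r
  ind : ∀ j0 i, i ≠ j0 → (1 - c - a i - ρ i) * max (a i) 0 ≤
    (a j0 + ρ j0) * (a i + d i) + (1 - c - a j0 - ρ j0) * (r - a j0)

/-- RL (80 lines; uses CN ED). Enumerate `A = Sg S` by `e : Fin (m + 1) ≃ A` (`Finset.orderEmbOfFin` or
`Fintype.equivFinOfCardEq`), `a j = D - mm`, `ρ j = mm - nn`, `d j = p - D`. `∏_x (1 - p_x) = ∏_A (1 - p_j) ∏_{x ∉ A} (1 - p_x)`,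
`1 - p_j = c - d_j`, `∏_{x ∉ A} (1 - p_x) ≤ exp (-∑_{x ∉ A} p_x) ≤ exp (-(∑ ρ_j + 2 z))`, and `0 ≤ ∏_A (1 - p_j)`. -/
def Stmt_RL : Prop :=
  ∀ (ι : Type) [Fintype ι] [DecidableEq ι] (q m : ℕ) (c : ℝ) (S : TSys ι q (1 - c)), 
    (Sg S).card = m + 1 →
    ∃ (a ρ d : Fin (m + 1) → ℝ) (r z : ℝ), Rel m c a ρ d r z ∧ (∀ j, d j ≤ c) ∧
      S.val ≤ (∏ j, (c - d j)) * Real.exp (-(∑ j, ρ j + 2 * z))

/-- TB (120 lines; uses CN and `Stmt_INA` of MP_1ce445_lin; as `Stmt_INB` of MP_1ce445_upg, file `INB.lean` there). At most `m`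
singleton elements. `r' = 1 - ∑_A n_j` (mass of the types with at least two elements), `x = ∑_A p_j`, `a = |A|`.
`∑_x p_x = ∑_s w_s |T s| ≥ 1 + r'`, `x ≥ ∑_A n_j = 1 - r'`, `x ≤ a`. `a = 0`: `r' = 1`, the value is `≤ exp (-2) ≤ 1/4 ≤
(1 - 1/m)^m`. `a ≥ 1`: AM-GM for `A`, `exp` for the other elements, INA with `s = 0`. -/
def Stmt_TB : Prop :=
  ∀ (ι : Type) [Fintype ι] [DecidableEq ι] (q m : ℕ) (D : ℝ) (S : TSys ι q D), 2 ≤ m → (Sg S).card ≤ m →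
    S.val ≤ (1 - 1 / (m : ℝ)) ^ m

/-- TG (40 lines; uses CN and `Stmt_POW` of MP_1ce445_upg): at least `m + 2` singleton elements: every factor of `A` is `≤ c`
(`D ≤ p_j`), the others are in `[0, 1]`. -/
def Stmt_TG : Prop :=
  ∀ (ι : Type) [Fintype ι] [DecidableEq ι] (q m : ℕ) (c : ℝ) (S : TSys ι q (1 - c)), 2 ≤ m → 0 ≤ c →
    c ≤ 1 - 1 / ((m : ℝ) + 1) → m + 2 ≤ (Sg S).card → S.val ≤ (1 - 1 / (m : ℝ)) ^ m

/-- FW (40 lines; uses RL TB TG). If the value of all real data is at most `H`, then `FF c ≤ max ((1 - 1/m)^m) H`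
(`csSup_le`; nonempty by A27, `HasVal (1 - c) (1/27)`). -/
def Stmt_FW : Prop :=
  ∀ (m : ℕ) (c H : ℝ), 2 ≤ m → 0 < c → c < 1 → c ≤ 1 - 1 / ((m : ℝ) + 1) →
    (∀ (a ρ d : Fin (m + 1) → ℝ) (r z : ℝ), Rel m c a ρ d r z → (∀ j, d j ≤ c) →
      (∏ j, (c - d j)) * Real.exp (-(∑ j, ρ j + 2 * z)) ≤ max ((1 - 1 / (m : ℝ)) ^ m) H) →
    FF c ≤ max ((1 - 1 / (m : ℝ)) ^ m) H

end Pool.Agent.Work.MP_1ce445_hub
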